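import Mathlib

/-!
# Elements of large finite fields with prescribed power residue symbols: preparations
-/

set_option autoImplicit false

namespace Pool.Agent.Y823.FT2

open Polynomial Finset

/-- A multiplicative character of exact order `l` detects the `l`-th powers. -/
theorem pow_of_chi {k : Type} [Field k] [Fintype k] {l : ℕ}
    {χ : MulChar k ℂ} (hχ : orderOf χ = l) {x : k} (hx : x ≠ 0) (h1 : χ x = 1) :
    ∃ y : k, y ≠ 0 ∧ x = y ^ l := by
  classical
  obtain ⟨g, hg⟩ := IsCyclic.exists_generator (α := kˣ)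
  obtain ⟨n, hn⟩ := Subgroup.mem_zpowers_iff.1 (hg (Units.mk0 x hx))
  have hn' : x = ((g ^ n : kˣ) : k) := by rw [hn]; rfl
  have h2 : (χ (g : k)) ^ n = 1 := by
    have h3 := h1
    rw [hn'] at h3
    have h4 : χ ((g ^ n : kˣ) : k) = ((MulChar.toUnitHom χ (g ^ n) : ℂˣ) : ℂ) :=
      (MulChar.coe_toUnitHom χ _).symm
    rw [h4, map_zpow, Units.val_zpow_eq_zpow_val, MulChar.coe_toUnitHom] at h3
    exact h3
  have h5 : (l : ℤ) ∣ n := by
    rw [← hχ]
    by_contra hnd
    have h6 : χ ^ (n % (orderOf χ : ℤ)).toNat = 1 := by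
      rw [MulChar.eq_one_iff]
      intro a
      obtain ⟨j, hj⟩ := Subgroup.mem_zpowers_iff.1 (hg a)
      have hga : (χ (a : k)) = (χ (g : k)) ^ j := by
        rw [← hj, ← MulChar.coe_toUnitHom, map_zpow, Units.val_zpow_eq_zpow_val,
          MulChar.coe_toUnitHom]
      rw [MulChar.pow_apply_coe, hga]
      have h0 : 0 ≤ n % (orderOf χ : ℤ) := Int.emod_nonneg _ (by
        intro h0
        have h00 : orderOf χ = 0 := by exact_mod_cast h0
        exact (MulChar.orderOf_pos χ).ne' h00)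
      have hg0 : χ (g : k) ≠ 0 := by
        rw [← MulChar.coe_toUnitHom]
        exact Units.ne_zero _
      have h7 : (χ (g : k)) ^ (n % (orderOf χ : ℤ)) = 1 := by
        have h8 : (χ (g : k)) ^ (orderOf χ) = 1 := by
          rw [← MulChar.pow_apply_coe, pow_orderOf_eq_one, MulChar.one_apply_coe]
        have h9 := Int.emod_add_mul_ediv n (orderOf χ : ℤ)
        have h10 : (χ (g : k)) ^ (n % (orderOf χ : ℤ) + (orderOf χ : ℤ) * (n / (orderOf χ : ℤ)))
            = 1 := by rw [h9, h2]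
        rw [zpow_add₀ hg0, zpow_mul, zpow_natCast, h8, one_zpow, mul_one] at h10
        exact h10
      have h11 : (χ (g : k)) ^ (n % (orderOf χ : ℤ)).toNat = 1 := by
        rw [← zpow_natCast, Int.toNat_of_nonneg h0, h7]
      rw [← zpow_natCast, ← zpow_mul, mul_comm, zpow_mul, zpow_natCast, h11, one_zpow]
    have h12 : orderOf χ ∣ (n % (orderOf χ : ℤ)).toNat := orderOf_dvd_of_pow_eq_one h6
    have hpos : 0 < (orderOf χ : ℤ) := by exact_mod_cast MulChar.orderOf_pos χ
    have h13 : n % (orderOf χ : ℤ) < orderOf χ := Int.emod_lt_of_pos _ hpos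
    have h14 : 0 ≤ n % (orderOf χ : ℤ) := Int.emod_nonneg _ hpos.ne'
    have h15 : (n % (orderOf χ : ℤ)).toNat = 0 := by
      apply Nat.eq_zero_of_dvd_of_lt h12
      omega
    exact hnd (Int.dvd_of_emod_eq_zero (by omega))
  obtain ⟨q, hq⟩ := h5
  refine ⟨((g ^ q : kˣ) : k), Units.ne_zero _, ?_⟩
  rw [hn', hq, ← Units.val_pow_eq_pow_val, ← zpow_natCast, ← zpow_mul, mul_comm]

/-- The product of the geometric sums. -/
theorem geom_zero {z : ℂ} {l : ℕ} (h1 : z ^ l = 1) (h2 : z ≠ 1) :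
    ∑ e ∈ range l, z ^ e = 0 := by
  rw [geom_sum_eq h2, h1, sub_self, zero_div]

/-- The polynomial attached to a vector of exponents. -/
noncomputable def fe {k : Type} [Field k] {m : ℕ} (a c : Fin m → k) (e : Fin m → ℕ) : k[X] :=
  ∏ i, (C (c i)⁻¹ * (X - C (a i))) ^ e i

theorem fe_eval {k : Type} [Field k] {m : ℕ} (a c : Fin m → k) (e : Fin m → ℕ) (x : k) :
    (fe a c e).eval x = ∏ i, ((c i)⁻¹ * (x - a i)) ^ e i := by
  simp [fe, eval_prod]

theorem fe_ne {k : Type} [Field k] {m : ℕ} (a c : Fin m → k) (hc : ∀ i, c i ≠ 0)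
    (e : Fin m → ℕ) : fe a c e ≠ 0 := by
  unfold fe
  refine Finset.prod_ne_zero_iff.2 fun i _ => pow_ne_zero _ (mul_ne_zero ?_ (X_sub_C_ne_zero _))
  rw [Ne, C_eq_zero]
  exact inv_ne_zero (hc i)

theorem fe_deg {k : Type} [Field k] {m l : ℕ} (a c : Fin m → k)
    (e : Fin m → ℕ) (he : ∀ i, e i < l) : (fe a c e).natDegree ≤ m * l := by
  unfold fe
  refine (natDegree_prod_le _ _).trans ?_
  calc ∑ i : Fin m, ((C (c i)⁻¹ * (X - C (a i))) ^ e i).natDegree ≤ ∑ i : Fin m, l := by
        refine Finset.sum_le_sum fun i _ => ?_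
        refine natDegree_pow_le.trans ?_
        have h1 : (C (c i)⁻¹ * (X - C (a i))).natDegree ≤ 1 := by
          refine (natDegree_C_mul_le _ _).trans ?_
          rw [natDegree_X_sub_C]
        calc e i * _ ≤ e i * 1 := Nat.mul_le_mul_left _ h1
          _ ≤ l := by have := he i; omega
    _ = m * l := by simp

theorem fe_rm {k : Type} [Field k] {m : ℕ} (a c : Fin m → k) (ha : Function.Injective a)
    (hc : ∀ i, c i ≠ 0) (e : Fin m → ℕ) (j : Fin m) :
    rootMultiplicity (a j) (fe a c e) = e j := by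
  classical
  have h1 : fe a c e = ∏ i, (C ((c i)⁻¹ ^ e i) * (X - C (a i)) ^ e i) := by
    unfold fe
    refine Finset.prod_congr rfl fun i _ => ?_
    rw [mul_pow, C_pow]
  rw [← count_roots, h1, Finset.prod_mul_distrib, ← map_prod]
  have h2 : (∏ i, (c i)⁻¹ ^ e i) ≠ 0 :=
    Finset.prod_ne_zero_iff.2 fun i _ => pow_ne_zero _ (inv_ne_zero (hc i))
  rw [roots_C_mul _ h2, roots_prod]
  · simp only [roots_pow, roots_X_sub_C, Multiset.count_bind, Multiset.count_nsmul,
      Multiset.count_singleton]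
    rw [← Finset.sum_eq_multiset_sum]
    rw [Finset.sum_eq_single j]
    · simp
    · intro b _ hb
      have : a j ≠ a b := fun h => hb (ha h).symm
      simp [this]
    · simp
  · exact Finset.prod_ne_zero_iff.2 fun i _ => pow_ne_zero _ (X_sub_C_ne_zero _)

end Pool.Agent.Y823.FT2
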