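import Pool.Agent.Y160.FT2.Stmts
import Pool.Agent.H435R3.Weil.Bound
import Pool.Agent.Y823.FT2.CntA

/-!
# Elements of large finite fields with prescribed power residue symbols
-/

set_option autoImplicit false

namespace Pool.Agent.Y823.FT2

open Polynomial Finset
open Pool.Agent.H435R3.Weil
open Pool.Agent.Y160.FT (StCnt)

theorem stCnt : StCnt := by
  classical
  intro l m hl
  obtain ⟨K, hK0, hK⟩ := wele l (m * l) hl.two_le
  refine ⟨Nat.ceil ((((l : ℝ) ^ m * (K + m)) ^ 2)) + 1, ?_⟩
  intro k _ _ hdvd hM a c ha hc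
  let _ : Fintype k := Fintype.ofFinite k
  rw [Nat.card_eq_fintype_card] at hdvd hM
  obtain ⟨χ, hχ⟩ := MulChar.exists_mulChar_orderOf k hdvd
    (Complex.isPrimitiveRoot_exp l hl.ne_zero)
  have hχl : χ ^ l = 1 := by rw [← hχ]; exact pow_orderOf_eq_one χ
  have hl1 : 1 < l := hl.one_lt
  by_contra hcon
  push Not at hcon
  -- the value of the product of the geometric sums
  have hbad : ∀ x : k, (∀ i, x ≠ a i) →
      ∏ i, ∑ e ∈ range l, (χ ((c i)⁻¹ * (x - a i))) ^ e = 0 := by
    intro x hx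
    obtain ⟨i, hi⟩ := hcon x
    refine Finset.prod_eq_zero (mem_univ i) (geom_zero ?_ ?_)
    · rw [← MulChar.pow_apply' χ hl.ne_zero, hχl, MulChar.one_apply]
      exact (mul_ne_zero (inv_ne_zero (hc i)) (sub_ne_zero.2 (hx i))).isUnit
    · intro h1
      obtain ⟨y, hy0, hy⟩ := pow_of_chi hχ
        (mul_ne_zero (inv_ne_zero (hc i)) (sub_ne_zero.2 (hx i))) h1
      refine hi y hy0 ?_
      rw [← hy, mul_inv_cancel_left₀ (hc i)]
  have hnorm : ∀ x : k, ‖∏ i, ∑ e ∈ range l, (χ ((c i)⁻¹ * (x - a i))) ^ e‖ ≤ (l : ℝ) ^ m := by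
    intro x
    rw [norm_prod]
    calc ∏ i, ‖∑ e ∈ range l, (χ ((c i)⁻¹ * (x - a i))) ^ e‖ ≤ ∏ _i : Fin m, (l : ℝ) := by
          refine Finset.prod_le_prod (fun _ _ => norm_nonneg _) fun i _ => ?_
          refine (norm_sum_le _ _).trans ?_
          calc ∑ e ∈ range l, ‖(χ ((c i)⁻¹ * (x - a i))) ^ e‖ ≤ ∑ e ∈ range l, (1 : ℝ) := by
                refine Finset.sum_le_sum fun e _ => ?_
                rw [norm_pow]
                exact pow_le_one₀ (norm_nonneg _) (WELE.mc_norm_le_one χ _)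
            _ = l := by simp
      _ = (l : ℝ) ^ m := by simp
  -- the sum over all elements is small
  have hS1 : ‖∑ x : k, ∏ i, ∑ e ∈ range l, (χ ((c i)⁻¹ * (x - a i))) ^ e‖ ≤
      m * (l : ℝ) ^ m := by
    have h1 : ∑ x : k, ∏ i, ∑ e ∈ range l, (χ ((c i)⁻¹ * (x - a i))) ^ e =
        ∑ x ∈ univ.image a, ∏ i, ∑ e ∈ range l, (χ ((c i)⁻¹ * (x - a i))) ^ e := by
      symm
      refine Finset.sum_subset (subset_univ _) fun x _ hx => hbad x fun i hi => hx ?_
      rw [hi]
      exact mem_image_of_mem a (mem_univ i)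
    rw [h1]
    refine (norm_sum_le _ _).trans ?_
    refine (Finset.sum_le_sum fun x _ => hnorm x).trans ?_
    rw [Finset.sum_const, nsmul_eq_mul]
    have h2 : ((univ.image a).card : ℝ) ≤ m := by
      have h3 : (univ.image a).card ≤ m := by
        refine card_image_le.trans ?_
        simp
      exact_mod_cast h3
    exact mul_le_mul_of_nonneg_right h2 (by positivity)
  -- expansion
  have hexp : ∑ x : k, ∏ i, ∑ e ∈ range l, (χ ((c i)⁻¹ * (x - a i))) ^ e =
      ∑ e ∈ Fintype.piFinset fun _ : Fin m => range l, ∑ x : k, χ ((fe a c e).eval x) := by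
    rw [Finset.sum_comm]
    refine Finset.sum_congr rfl fun x _ => ?_
    rw [Finset.prod_univ_sum]
    refine Finset.sum_congr rfl fun e _ => ?_
    rw [fe_eval, map_prod]
    refine Finset.prod_congr rfl fun i _ => ?_
    rw [map_pow]
  have h0mem : (fun _ => 0 : Fin m → ℕ) ∈ Fintype.piFinset fun _ : Fin m => range l := by
    rw [Fintype.mem_piFinset]
    intro i
    exact mem_range.2 hl.pos
  have h0val : ∑ x : k, χ ((fe a c (fun _ => 0)).eval x) = (Fintype.card k : ℂ) := by
    simp only [fe_eval, pow_zero, Finset.prod_const_one, map_one]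
    simp
  have hrest : ‖∑ e ∈ (Fintype.piFinset fun _ : Fin m => range l).erase (fun _ => 0),
      ∑ x : k, χ ((fe a c e).eval x)‖ ≤ (l : ℝ) ^ m * (K * Real.sqrt (Fintype.card k)) := by
    refine (norm_sum_le _ _).trans ?_
    calc ∑ e ∈ (Fintype.piFinset fun _ : Fin m => range l).erase (fun _ => 0),
          ‖∑ x : k, χ ((fe a c e).eval x)‖ ≤
        ∑ e ∈ (Fintype.piFinset fun _ : Fin m => range l).erase (fun _ => 0),
          K * Real.sqrt (Fintype.card k) := by
          refine Finset.sum_le_sum fun e he => ?_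
          rw [mem_erase, Fintype.mem_piFinset] at he
          have he2 : ∀ i, e i < l := fun i => mem_range.1 (he.2 i)
          refine hK k hdvd χ ?_ hχl (fe a c e) (fe_deg a c e he2) (fe_ne a c hc e) ?_
          · intro h1
            rw [h1, orderOf_one] at hχ
            omega
          · obtain ⟨j, hj⟩ : ∃ j, e j ≠ 0 := by
              by_contra hn
              push Not at hn
              exact he.1 (funext hn)
            refine ⟨a j, ?_⟩
            rw [fe_rm a c ha hc]
            exact (Nat.coprime_of_lt_prime hj (he2 j) hl).symm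
      _ ≤ (l : ℝ) ^ m * (K * Real.sqrt (Fintype.card k)) := by
          rw [Finset.sum_const, nsmul_eq_mul]
          refine mul_le_mul_of_nonneg_right ?_ (by positivity)
          have h3 : ((Fintype.piFinset fun _ : Fin m => range l).erase
              (fun _ => 0)).card ≤ l ^ m := by
            refine (card_le_card (erase_subset _ _)).trans ?_
            rw [Fintype.card_piFinset]
            simp
          exact_mod_cast h3
  have hcard : (Fintype.card k : ℝ) ≤ (l : ℝ) ^ m * (K + m) * Real.sqrt (Fintype.card k) := by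
    have h1 : (Fintype.card k : ℂ) =
        (∑ x : k, ∏ i, ∑ e ∈ range l, (χ ((c i)⁻¹ * (x - a i))) ^ e) -
        ∑ e ∈ (Fintype.piFinset fun _ : Fin m => range l).erase (fun _ => 0),
          ∑ x : k, χ ((fe a c e).eval x) := by
      rw [hexp, ← Finset.add_sum_erase _ _ h0mem, h0val]
      ring
    have h2 : (Fintype.card k : ℝ) = ‖(Fintype.card k : ℂ)‖ := by simp
    rw [h2, h1]
    refine (norm_sub_le _ _).trans ?_
    refine (add_le_add hS1 hrest).trans ?_
    rw [← h1, ← h2]
    have hq1 : (1 : ℝ) ≤ Real.sqrt (Fintype.card k) := by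
      rw [Real.one_le_sqrt]
      exact_mod_cast Fintype.card_pos
    have h4 : (0 : ℝ) ≤ m * (l : ℝ) ^ m := by positivity
    nlinarith
  have hM' : ((l : ℝ) ^ m * (K + m)) ^ 2 < (Fintype.card k : ℝ) := by
    have h1 : ((l : ℝ) ^ m * (K + m)) ^ 2 ≤ Nat.ceil ((((l : ℝ) ^ m * (K + m)) ^ 2)) :=
      Nat.le_ceil _
    have h2 : ((Nat.ceil ((((l : ℝ) ^ m * (K + m)) ^ 2)) + 1 : ℕ) : ℝ) ≤
        (Fintype.card k : ℝ) := by exact_mod_cast hM
    push_cast at h2
    linarith
  have hs : Real.sqrt (Fintype.card k) ^ 2 = (Fintype.card k : ℝ) :=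
    Real.sq_sqrt (Nat.cast_nonneg _)
  have hs0 : 0 < Real.sqrt (Fintype.card k) := by
    apply Real.sqrt_pos.2
    exact_mod_cast Fintype.card_pos
  have hA : 0 ≤ (l : ℝ) ^ m * (K + m) := by positivity
  have h5 : Real.sqrt (Fintype.card k) ≤ (l : ℝ) ^ m * (K + m) := by
    have h6 : Real.sqrt (Fintype.card k) * Real.sqrt (Fintype.card k) ≤
        (l : ℝ) ^ m * (K + m) * Real.sqrt (Fintype.card k) := by
      rw [← sq, hs]
      exact hcard
    exact le_of_mul_le_mul_right h6 hs0
  have h7 : (Fintype.card k : ℝ) ≤ ((l : ℝ) ^ m * (K + m)) ^ 2 := by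
    rw [← hs]
    exact pow_le_pow_left₀ hs0.le h5 2
  linarith

end Pool.Agent.Y823.FT2
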